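import Mathlib

set_option autoImplicit false
open Filter Topology Set

namespace Pool.Agent.H.MP_c42e77_an

lemma cyl_open (B : ℕ → Bool) (m : ℕ) : IsOpen {C : ℕ → Bool | ∀ i < m, C i = B i} := by
  have : {C : ℕ → Bool | ∀ i < m, C i = B i} = ⋂ i ∈ Finset.range m, {C | C i = B i} := by
    ext C; simp
  rw [this]
  exact isOpen_biInter_finset fun i _ => 
    (isOpen_discrete {B i}).preimage (f := fun C : ℕ → Bool => C i) (continuous_apply i)

lemma cyl_closed (B : ℕ → Bool) (m : ℕ) : IsClosed {C : ℕ → Bool | ∀ i < m, C i = B i} := by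
  have : {C : ℕ → Bool | ∀ i < m, C i = B i} = ⋂ i ∈ Finset.range m, {C | C i = B i} := by
    ext C; simp
  rw [this]
  exact isClosed_biInter fun i _ => isClosed_eq (continuous_apply i) continuous_const

lemma preperfect_of {Q : Set (ℕ → Bool)}
    (h : ∀ B ∈ Q, ∀ m, ∃ C ∈ Q, C ≠ B ∧ ∀ i < m, C i = B i) : Preperfect Q := by
  intro B hB
  choose C h1 h2 h3 using h B hB
  have ht : Tendsto C atTop (𝓝 B) := tendsto_pi_nhds.2 fun i =>
    tendsto_const_nhds.congr' (by
      filter_upwards [eventually_gt_atTop i] with m hm using (h3 m i hm).symm)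
  rw [accPt_iff_frequently]
  exact ht.frequently (Eventually.of_forall fun m => ⟨h2 m, h1 m⟩).frequently

lemma split {P : Set (ℕ → Bool)} (hP : Preperfect P) (N : ℕ) :
    ∃ M, N < M ∧ ∀ B ∈ P, ∃ C ∈ P, (∀ i < N, C i = B i) ∧ ∃ i < M, C i ≠ B i := by
  have h1 : ∀ σ : Fin N → Bool, ∃ i, ∀ B ∈ P, (∀ j : Fin N, B j = σ j) →
      ∃ C ∈ P, (∀ j : Fin N, C j = σ j) ∧ C i ≠ B i := by
    intro σ
    by_cases h : ∃ B ∈ P, ∀ j : Fin N, B j = σ j
    · obtain ⟨B, hB, hB'⟩ := h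
      obtain ⟨C, ⟨c1, c2⟩, c3⟩ := (accPt_iff_nhds.1 (hP B hB)) _
        ((cyl_open B N).mem_nhds fun _ _ => rfl)
      obtain ⟨i, hi⟩ := Function.ne_iff.1 c3
      refine ⟨i, fun E _ _ => ?_⟩
      by_cases h2 : B i = E i
      · exact ⟨C, c2, fun j => (c1 j j.2).trans (hB' j), h2 ▸ hi⟩
      · exact ⟨B, hB, hB', h2⟩
    · exact ⟨0, fun B hB hB' => absurd ⟨B, hB, hB'⟩ h⟩
  choose g hg using h1
  obtain ⟨M, hM⟩ := (Set.finite_range g).bddAbove
  refine ⟨N + M + 1, by omega, fun B hB => ?_⟩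
  obtain ⟨C, c1, c2, c3⟩ := hg (fun j => B j) B hB fun _ => rfl
  have := hM ⟨fun j => B j, rfl⟩
  exact ⟨C, c1, fun i hi => c2 ⟨i, hi⟩, _, by omega, c3⟩

lemma case1 {P : Set (ℕ → Bool)} (hP : Perfect P) (hne : P.Nonempty)
    (h : ∀ m, ∃ n, m ≤ n ∧ ∀ B ∈ P, ∃ C ∈ P, (∀ i < m, C i = B i) ∧ C n = false) :
    ∃ Q ⊆ P, Perfect Q ∧ Q.Nonempty ∧ ∃ I : Set ℕ, I.Infinite ∧ ∀ B ∈ Q, ∀ n ∈ I, B n = false := by
  choose ν hν hν' using h
  choose μ hμ hμ' using split hP.acc
  let m : ℕ → ℕ := fun k => Nat.rec 0 (fun _ a => μ (ν a + 1)) k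
  have ms : ∀ k, m (k + 1) = μ (ν (m k) + 1) := fun _ => rfl
  have m1 : ∀ k, ν (m k) + 1 < m (k + 1) := fun k => hμ _
  have m2 : StrictMono m := strictMono_nat_of_lt_succ fun k => by
    have := m1 k; have := hν (m k); omega
  have m3 : ∀ j k, j < k → ν (m j) < m k := fun j k hjk => by
    have := m1 j; have := m2.monotone (show j + 1 ≤ k by omega); omega
  let Q : ℕ → Set (ℕ → Bool) := fun k => {B | B ∈ P ∧ ∀ j < k, B (ν (m j)) = false}
  have Qc : ∀ k, IsClosed (Q k) := fun k => by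
    have : Q k = P ∩ ⋂ j ∈ Finset.range k, {B | B (ν (m j)) = false} := by
      ext B; simp [Q]
    rw [this]
    exact hP.closed.inter (isClosed_biInter fun j _ =>
      isClosed_eq (continuous_apply _) continuous_const)
  have step : ∀ k, ∀ B ∈ Q k, ∃ C ∈ Q (k + 1), ∀ i < m k, C i = B i := by
    intro k B hB
    obtain ⟨C, c1, c2, c3⟩ := hν' (m k) B hB.1
    refine ⟨C, ⟨c1, fun j hj => ?_⟩, c2⟩
    rcases Nat.lt_succ_iff_lt_or_eq.1 hj with h1 | rfl
    · rw [c2 _ (m3 j k h1)]; exact hB.2 j h1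
    · exact c3
  have ext : ∀ k, ∀ B ∈ Q k, ∃ C ∈ ⋂ j, Q j, ∀ i < m k, C i = B i := by
    intro k B hB
    obtain ⟨C, hC⟩ := IsCompact.nonempty_iInter_of_sequence_nonempty_isCompact_isClosed
      (fun j => Q (k + j) ∩ {C | ∀ i < m k, C i = B i})
      (fun j C hC => ⟨⟨hC.1.1, fun l hl => hC.1.2 l (by omega)⟩, hC.2⟩)
      (fun j => by
        induction j with
        | zero => exact ⟨B, hB, fun _ _ => rfl⟩
        | succ j ih =>
          obtain ⟨C, c1, c2⟩ := ih
          obtain ⟨E, e1, e2⟩ := step _ C c1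
          exact ⟨E, e1, fun i hi =>
            (e2 i (hi.trans_le (m2.monotone (Nat.le_add_right k j)))).trans (c2 i hi)⟩)
      ((Qc _).inter (cyl_closed B _)).isCompact fun j => (Qc _).inter (cyl_closed B _)
    rw [mem_iInter] at hC
    exact ⟨C, mem_iInter.2 fun j => ⟨(hC 0).1.1, fun l hl => (hC j).1.2 l (by omega)⟩, (hC 0).2⟩
  refine ⟨⋂ j, Q j, fun B hB => (mem_iInter.1 hB 0).1, ⟨isClosed_iInter Qc, preperfect_of ?_⟩, ?_,
    range fun k => ν (m k), infinite_range_of_injective (StrictMono.injective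
      (strictMono_nat_of_lt_succ fun k => (m3 k _ (Nat.lt_succ_self k)).trans_le (hν _))), ?_⟩
  · intro B hB k
    obtain ⟨C, c1, c2, i, c3, c4⟩ := hμ' (ν (m k) + 1) B (mem_iInter.1 hB 0).1
    obtain ⟨E, e1, e2⟩ := ext (k + 1) C ⟨c1, fun j hj => by
      have : ν (m j) < ν (m k) + 1 := by
        rcases Nat.lt_succ_iff_lt_or_eq.1 hj with h1 | rfl
        · have := m3 j k h1; have := hν (m k); omega
        · omega
      rw [c2 _ this]; exact (mem_iInter.1 hB (j + 1)).2 j (Nat.lt_succ_self j)⟩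
    refine ⟨E, e1, fun h => c4 (by rw [← e2 i c3, h]), fun l hl => ?_⟩
    have a1 := m1 k
    have a2 := hν (m k)
    have a3 := m2.le_apply (x := k)
    rw [e2 l (by omega), c2 l (by omega)]
  · obtain ⟨B, hB⟩ := hne
    obtain ⟨C, c1, -⟩ := ext 0 B ⟨hB, fun j hj => absurd hj (Nat.not_lt_zero j)⟩
    exact ⟨C, c1⟩
  · rintro B hB _ ⟨k, rfl⟩
    exact (mem_iInter.1 hB (k + 1)).2 k (Nat.lt_succ_self k)

lemma const_coords {P : Set (ℕ → Bool)} (hP : Perfect P) (hne : P.Nonempty) :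
    ∃ Q ⊆ P, Perfect Q ∧ Q.Nonempty ∧ ∃ I : Set ℕ, I.Infinite ∧ ∃ v,
      ∀ B ∈ Q, ∀ n ∈ I, B n = v := by
  by_cases h : ∀ m, ∃ n, m ≤ n ∧ ∀ B ∈ P, ∃ C ∈ P, (∀ i < m, C i = B i) ∧ C n = false
  · obtain ⟨Q, h1, h2, h3, I, h4, h5⟩ := case1 hP hne h
    exact ⟨Q, h1, h2, h3, I, h4, false, h5⟩
  push Not at h
  obtain ⟨m, hm⟩ := h
  choose B hB hB' using fun n => hm (m + n) (Nat.le_add_right m n)
  obtain ⟨σ, hσ⟩ := Finite.exists_infinite_fiber (fun n => fun j : Fin m => B n j)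
  have hσ' := Set.infinite_coe_iff.1 hσ
  obtain ⟨n0, hn0⟩ := hσ'.nonempty
  refine ⟨{C | ∀ i < m, C i = B n0 i} ∩ P, inter_subset_right,
    ⟨(cyl_closed _ _).inter hP.closed, hP.acc.open_inter (cyl_open _ _)⟩,
    ⟨B n0, fun _ _ => rfl, hB n0⟩, (fun n => m + n) '' _,
    hσ'.image (fun a _ b _ h => by simpa using h), true, ?_⟩
  rintro C hC _ ⟨n, hn, rfl⟩
  have := hB' n C hC.2 fun i hi => by
    rw [hC.1 i hi]
    exact (congrFun hn0 ⟨i, hi⟩).trans (congrFun hn ⟨i, hi⟩).symm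
  simpa using this

theorem main (x : ℕ → ℝ) (hx : ∀ n, 0 < x n) (hs : Summable x) :
    ({t : ℝ | Cardinal.mk (↥{ε : ℕ → Bool | (∑' n, if ε n then x n else 0) = t})
          = Cardinal.continuum} = ∅ ∨
      ∃ C : Set ℝ,
        C ⊆ {t : ℝ | Cardinal.mk (↥{ε : ℕ → Bool | (∑' n, if ε n then x n else 0) = t})
              = Cardinal.continuum} ∧
        Nonempty (C ≃ₜ (ℕ → Bool))) := by
  classical
  rw [or_iff_not_imp_left]
  intro hne
  obtain ⟨t, ht⟩ := nonempty_iff_ne_empty.2 hne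
  let a : (ℕ → Bool) → ℕ → ℝ := fun ε n => if ε n then x n else 0
  have ab : ∀ ε n, ‖a ε n‖ ≤ x n := fun ε n => by
    simp only [a]
    split_ifs
    · exact (abs_of_pos (hx n)).le
    · simpa using (hx n).le
  have as : ∀ ε, Summable (a ε) := fun ε => hs.of_norm_bounded (ab ε)
  let f : (ℕ → Bool) → ℝ := fun ε => ∑' n, a ε n
  have fc : Continuous f := continuous_tsum (fun n =>
    (continuous_of_discreteTopology (f := fun b : Bool => if b then x n else 0)).comp
      (continuous_apply n)) hs fun n ε => ab ε n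
  have swap : ∀ A B C E : ℕ → Bool, (∀ n, (A n = C n ∧ B n = E n) ∨ (A n = E n ∧ B n = C n)) →
      f A + f B = f C + f E := by
    intro A B C E h
    rw [← (as A).tsum_add (as B), ← (as C).tsum_add (as E)]
    refine tsum_congr fun n => ?_
    rcases h n with h | h <;> simp only [a, h.1, h.2]
    exact add_comm _ _
  obtain ⟨P, hP, hP1, hP2⟩ := exists_perfect_nonempty_of_isClosed_of_not_countable
    (C := {ε | f ε = t}) (isClosed_eq fc continuous_const) (fun hc => by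
      have h1 := Cardinal.le_aleph0_iff_set_countable.2 hc
      have h2 : Cardinal.mk (↥{ε | f ε = t}) = Cardinal.continuum := ht
      rw [h2] at h1
      exact absurd h1 (not_le.2 Cardinal.aleph0_lt_continuum))
  obtain ⟨Q, q1, q2, q3, I, hI, v, q4⟩ := const_coords hP hP1
  obtain ⟨B0, hB0⟩ := id q3
  obtain ⟨φ, φ1, -, φ3⟩ : ∃ φ : (ℕ → Bool) → ℕ → Bool, range φ ⊆ Q ∧ Continuous φ ∧
      Function.Injective φ := by
    let := TopologicalSpace.upgradeIsCompletelyMetrizable (ℕ → Bool)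
    exact q2.exists_nat_bool_injection q3
  let S : Set (ℕ → Bool) := {ε | ∀ n ∉ I, ε n = B0 n}
  have Sc : IsClosed S := by
    have : S = ⋂ n ∉ I, {ε | ε n = B0 n} := by ext ε; simp [S]
    rw [this]
    exact isClosed_iInter fun n => isClosed_iInter fun _ =>
      isClosed_eq (continuous_apply n) continuous_const
  have hE : Perfect (f '' S) := by
    refine ⟨(Sc.isCompact.image fc).isClosed, ?_⟩
    rintro _ ⟨ε, hε, rfl⟩
    have ht : Tendsto (fun n => Function.update ε n (!ε n)) atTop (𝓝 ε) :=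
      tendsto_pi_nhds.2 fun i => tendsto_const_nhds.congr' (by
        filter_upwards [eventually_gt_atTop i] with n hn
        rw [Function.update_of_ne hn.ne])
    rw [accPt_iff_frequently]
    refine ((fc.tendsto ε).comp ht).frequently ?_
    have hfr : ∃ᶠ n in atTop, n ∈ I := Nat.frequently_atTop_iff_infinite.2 hI
    refine hfr.mono fun n hn => ⟨fun h => ?_, _, fun k hk => ?_, rfl⟩
    · have h1 := (as ε).tsum_eq_add_tsum_ite n
      have h2 := (as (Function.update ε n (!ε n))).tsum_eq_add_tsum_ite n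
      have h3 : (∑' k, if k = n then 0 else a (Function.update ε n (!ε n)) k) =
          ∑' k, if k = n then 0 else a ε k := tsum_congr fun k => by
        split_ifs with hk
        · rfl
        · simp only [a, Function.update_of_ne hk]
      have h4 : f (Function.update ε n (!ε n)) = f ε := h
      have h5 : a (Function.update ε n (!ε n)) n = a ε n := by
        simp only [f] at h4
        rw [h1, h2, h3] at h4
        exact add_right_cancel h4
      have := (hx n).ne'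
      cases h6 : ε n <;> simp [a, h6] at h5
      · exact this h5
      · exact this h5.symm
    · exact (Function.update_of_ne (fun h : k = n => hk (h ▸ hn)) _ _).trans (hε k hk)
  obtain ⟨ψ, ψ1, ψ2, ψ3⟩ := hE.exists_nat_bool_injection ⟨_, B0, fun _ _ => rfl, rfl⟩
  refine ⟨range ψ, fun s hs => ?_, ⟨(ψ2.isClosedEmbedding ψ3).isEmbedding.toHomeomorph.symm⟩⟩
  obtain ⟨ε, hε, rfl⟩ := ψ1 hs
  have hc : Cardinal.mk (ℕ → Bool) = Cardinal.continuum := by simp
  refine le_antisymm (hc ▸ Cardinal.mk_set_le _) ?_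
  rw [← hc]
  refine Cardinal.mk_le_of_injective (f := fun w =>
    ⟨fun n => if n ∈ I then ε n else φ w n, ?_⟩) fun w w' h => φ3 (funext fun n => ?_)
  · have h1 := swap (fun n => if n ∈ I then ε n else φ w n) B0 (φ w) ε fun n => by
      by_cases hn : n ∈ I
      · exact Or.inr ⟨if_pos hn, (q4 _ hB0 n hn).trans (q4 _ (φ1 ⟨w, rfl⟩) n hn).symm⟩
      · exact Or.inl ⟨if_neg hn, (hε n hn).symm⟩
    have h2 : f B0 = t := hP2 (q1 hB0)
    have h3 : f (φ w) = t := hP2 (q1 (φ1 ⟨w, rfl⟩))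
    show f _ = f ε
    linarith
  · by_cases hn : n ∈ I
    · exact (q4 _ (φ1 ⟨w, rfl⟩) n hn).trans (q4 _ (φ1 ⟨w', rfl⟩) n hn).symm
    · simpa [hn] using congrFun (congrArg Subtype.val h) n

end Pool.Agent.H.MP_c42e77_an
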